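import Pool.Agent.N71.BI.Stm
import Pool.Agent.H510R2.Div

/-!
# Project BI, part PRD: many distinct products of two ideals of norm at most `x`
-/

set_option autoImplicit false

namespace Pool.Agent.N380.BI

open Finset Filter NumberField Pool.Agent.H38R2.CG Pool.Agent.N71.BI
open Pool.Agent.H38R2.CG.NFh (U mem_U card_U)
open scoped Classical

theorem chi_abs (D : ℤ) (n : ℕ) : |(chi D n : ℝ)| ≤ 1 := by
  have h1 : |(chi2 D : ℤ)| ≤ 1 := by
    unfold chi2
    split_ifs <;> simp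
  have h2 : |jacobiSym D (n / 2 ^ padicValNat 2 n)| ≤ 1 := by
    rcases jacobiSym.trichotomy D (n / 2 ^ padicValNat 2 n) with h | h | h <;> rw [h] <;> simp
  have h3 : |chi D n| ≤ 1 := by
    unfold chi
    rw [abs_mul, abs_pow]
    calc |chi2 D| ^ padicValNat 2 n * |jacobiSym D (n / 2 ^ padicValNat 2 n)| ≤ 1 * 1 := by
          gcongr
          exact pow_le_one₀ (abs_nonneg _) h1
      _ = 1 := one_mul 1
  exact_mod_cast h3

/-- the number of ideals of norm `n` -/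
theorem card_U_eq {K : Type} [Field K] [NumberField K] {D : ℕ} (hD : IsFund D)
    (hK : Module.finrank ℚ K = 2) (hdisc : NumberField.discr K = (D : ℤ)) (n : ℕ) (hn : 1 ≤ n) :
    ((U K n).card : ℝ) = ∑ m ∈ n.divisors, (chi D m : ℝ) := by
  have h := T_N2 (T_SPL T_N0) K D hD hK hdisc n hn
  rw [← card_U] at h
  have h' : (((U K n).card : ℤ) : ℝ) = ((∑ m ∈ n.divisors, chi D m : ℤ) : ℝ) := by rw [h]
  rw [Int.cast_sum, Int.cast_natCast] at h'
  exact h'

theorem card_U_le {K : Type} [Field K] [NumberField K] {D : ℕ} (hD : IsFund D)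
    (hK : Module.finrank ℚ K = 2) (hdisc : NumberField.discr K = (D : ℤ)) (n : ℕ) (hn : 1 ≤ n) :
    (U K n).card ≤ n.divisors.card := by
  have h := card_U_eq hD hK hdisc n hn
  have h2 : ∑ m ∈ n.divisors, (chi D m : ℝ) ≤ ∑ m ∈ n.divisors, (1 : ℝ) :=
    Finset.sum_le_sum fun m _ => (le_abs_self _).trans (chi_abs _ _)
  rw [← h, Finset.sum_const, nsmul_eq_mul, mul_one] at h2
  exact_mod_cast h2

/-- the nonzero ideals of norm at most `x` -/
noncomputable def GG (K : Type) [Field K] [NumberField K] (x : ℕ) : Finset (Ideal (𝓞 K)) :=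
  (Finset.Icc 1 x).biUnion (U K)

theorem mem_GG {K : Type} [Field K] [NumberField K] {x : ℕ} {I : Ideal (𝓞 K)} :
    I ∈ GG K x ↔ 1 ≤ Ideal.absNorm I ∧ Ideal.absNorm I ≤ x := by
  unfold GG
  rw [Finset.mem_biUnion]
  constructor
  · rintro ⟨n, hn, h⟩
    rw [mem_U] at h
    rw [h]
    exact Finset.mem_Icc.1 hn
  · intro h
    exact ⟨_, Finset.mem_Icc.2 h, mem_U.2 rfl⟩

theorem ne_bot_of_norm {K : Type} [Field K] [NumberField K] {I : Ideal (𝓞 K)}
    (h : 1 ≤ Ideal.absNorm I) : I ≠ ⊥ := by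
  rintro rfl
  rw [Ideal.absNorm_bot] at h
  omega

theorem card_GG {K : Type} [Field K] [NumberField K] {D : ℕ} (hD : IsFund D)
    (hK : Module.finrank ℚ K = 2) (hdisc : NumberField.discr K = (D : ℤ)) (x : ℕ) :
    ((GG K x).card : ℝ) = ∑ n ∈ Finset.Icc 1 x, ∑ m ∈ n.divisors, (chi D m : ℝ) := by
  unfold GG
  rw [Finset.card_biUnion, Nat.cast_sum]
  · exact Finset.sum_congr rfl fun n hn => card_U_eq hD hK hdisc n (Finset.mem_Icc.1 hn).1
  · intro a _ b _ hab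
    refine Finset.disjoint_left.2 fun I h1 h2 => hab ?_
    rw [mem_U] at h1 h2
    exact h1.symm.trans h2

theorem card_fib {K : Type} [Field K] [NumberField K] {D : ℕ} (hD : IsFund D)
    (hK : Module.finrank ℚ K = 2) (hdisc : NumberField.discr K = (D : ℤ)) (x : ℕ)
    (A : Ideal (𝓞 K)) (hA : 1 ≤ Ideal.absNorm A) :
    (((GG K x) ×ˢ (GG K x)).filter fun p => p.1 * p.2 = A).card ≤
      (Ideal.absNorm A).divisors.card ^ 2 := by
  have hA0 : A ≠ ⊥ := ne_bot_of_norm hA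
  calc (((GG K x) ×ˢ (GG K x)).filter fun p => p.1 * p.2 = A).card
      ≤ ((Ideal.absNorm A).divisors.biUnion (U K)).card := by
        apply Finset.card_le_card_of_injOn (fun p => p.1)
        · intro p hp
          rw [Finset.mem_coe, Finset.mem_filter] at hp
          rw [Finset.mem_coe, Finset.mem_biUnion]
          refine ⟨Ideal.absNorm p.1, ?_, mem_U.2 rfl⟩
          rw [Nat.mem_divisors]
          refine ⟨?_, by omega⟩
          rw [← hp.2, map_mul]
          exact Dvd.intro _ rfl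
        · intro p hp q hq hpq
          rw [Finset.mem_coe, Finset.mem_filter] at hp hq
          simp only at hpq
          have h1 : p.1 * p.2 = p.1 * q.2 := by
            rw [hp.2, hpq, hq.2]
          have h2 : p.1 ≠ 0 := by
            intro h0
            apply hA0
            rw [← hp.2, h0, zero_mul, Ideal.zero_eq_bot]
          have h3 : p.2 = q.2 := mul_left_cancel₀ h2 h1
          exact Prod.ext hpq h3
    _ ≤ ∑ n ∈ (Ideal.absNorm A).divisors, (U K n).card := Finset.card_biUnion_le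
    _ ≤ ∑ n ∈ (Ideal.absNorm A).divisors, (Ideal.absNorm A).divisors.card := by
        refine Finset.sum_le_sum fun n hn => ?_
        have hn' := Nat.mem_divisors.1 hn
        have hn1 : 1 ≤ n := Nat.pos_of_mem_divisors hn
        refine (card_U_le hD hK hdisc n hn1).trans ?_
        exact Finset.card_le_card (Nat.divisors_subset_of_dvd hn'.2 hn'.1)
    _ = (Ideal.absNorm A).divisors.card ^ 2 := by
        rw [Finset.sum_const, smul_eq_mul, pow_two]

theorem t_PRD (hCNT : E_CNT) : E_PRD := by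
  intro η ε hη hε
  obtain ⟨c1, hc1, hcnt⟩ := hCNT η (ε / 4) hη (by positivity)
  obtain ⟨C, hC, hdiv⟩ := Pool.Agent.H510R2.divisor_bound (ε / 16) (by positivity)
  refine ⟨c1 ^ 2 / C ^ 2, by positivity, ?_⟩
  intro K _ _ D hD hK hdisc x hx1 hx2
  have hD1 : (1 : ℝ) ≤ D := by exact_mod_cast hD.1.le
  have hD0 : (0 : ℝ) < D := by linarith
  have hx : (1 : ℝ) ≤ x := le_trans (Real.one_le_rpow hD1 (by linarith)) hx1
  have hxD : (x : ℝ) ≤ D := by exact_mod_cast hx2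
  set G := GG K x with hG
  set F : Finset (Ideal (𝓞 K)) := (G ×ˢ G).image fun p => p.1 * p.2 with hF
  have hmem : ∀ A ∈ F, 1 ≤ Ideal.absNorm A ∧ Ideal.absNorm A ≤ x ^ 2 ∧
      ∃ I J : Ideal (𝓞 K), A = I * J ∧ Ideal.absNorm I ≤ x ∧ Ideal.absNorm J ≤ x := by
    intro A hA
    rw [hF, Finset.mem_image] at hA
    obtain ⟨p, hp, rfl⟩ := hA
    rw [Finset.mem_product, hG, mem_GG, mem_GG] at hp
    obtain ⟨⟨h1, h2⟩, h3, h4⟩ := hp
    refine ⟨?_, ?_, p.1, p.2, rfl, h2, h4⟩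
    · rw [map_mul]
      exact Nat.one_le_iff_ne_zero.2 (Nat.mul_ne_zero (by omega) (by omega))
    · rw [map_mul, pow_two]
      exact Nat.mul_le_mul h2 h4
  refine ⟨F, fun A hA => ⟨ne_bot_of_norm (hmem A hA).1, (hmem A hA).2⟩, ?_⟩
  -- the fibres
  set M : ℝ := C ^ 2 * (D : ℝ) ^ (ε / 4) with hM
  have hM0 : 0 ≤ M := by positivity
  have hfib : ∀ A ∈ F, (((G ×ˢ G).filter fun p => p.1 * p.2 = A).card) ≤ ⌊M⌋₊ := by
    intro A hA
    obtain ⟨h1, h2, -⟩ := hmem A hA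
    rw [Nat.le_floor_iff hM0]
    have h3 : ((((G ×ˢ G).filter fun p => p.1 * p.2 = A).card : ℕ) : ℝ) ≤
        (((Ideal.absNorm A).divisors.card ^ 2 : ℕ) : ℝ) := by
      exact_mod_cast card_fib hD hK hdisc x A h1
    refine h3.trans ?_
    have h4 := hdiv (Ideal.absNorm A) h1
    have h5 : ((Ideal.absNorm A : ℕ) : ℝ) ^ (ε / 16) ≤ (D : ℝ) ^ (ε / 8) := by
      have h6 : ((Ideal.absNorm A : ℕ) : ℝ) ≤ (D : ℝ) ^ (2 : ℝ) := by
        rw [Real.rpow_two]
        calc ((Ideal.absNorm A : ℕ) : ℝ) ≤ ((x ^ 2 : ℕ) : ℝ) := by exact_mod_cast h2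
          _ = (x : ℝ) ^ 2 := by push_cast; ring
          _ ≤ (D : ℝ) ^ 2 := by gcongr
      calc ((Ideal.absNorm A : ℕ) : ℝ) ^ (ε / 16) ≤ ((D : ℝ) ^ (2 : ℝ)) ^ (ε / 16) := by
            apply Real.rpow_le_rpow (by positivity) h6 (by positivity)
        _ = (D : ℝ) ^ (ε / 8) := by
            rw [← Real.rpow_mul hD0.le]
            congr 1
            ring
    have h6 : ((Ideal.absNorm A).divisors.card : ℝ) ≤ C * (D : ℝ) ^ (ε / 8) :=
      h4.trans (by gcongr)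
    push_cast
    calc ((Ideal.absNorm A).divisors.card : ℝ) ^ 2 ≤ (C * (D : ℝ) ^ (ε / 8)) ^ 2 := by gcongr
      _ = M := by
        rw [hM, mul_pow, ← Real.rpow_natCast ((D : ℝ) ^ (ε / 8)) 2, ← Real.rpow_mul hD0.le]
        congr 2
        push_cast
        ring
  have hcard := Finset.card_le_mul_card_image (f := fun p : Ideal (𝓞 K) × Ideal (𝓞 K) => p.1 * p.2)
    (G ×ˢ G) ⌊M⌋₊ (fun A hA => hfib A hA)
  rw [← hF, Finset.card_product] at hcard
  have hcard' : (G.card : ℝ) ^ 2 ≤ M * F.card := by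
    calc (G.card : ℝ) ^ 2 = ((G.card * G.card : ℕ) : ℝ) := by push_cast; ring
      _ ≤ ((⌊M⌋₊ * F.card : ℕ) : ℝ) := by exact_mod_cast hcard
      _ = (⌊M⌋₊ : ℝ) * F.card := by push_cast; ring
      _ ≤ M * F.card := by
        have := Nat.floor_le hM0
        gcongr
  have hGc : c1 * (D : ℝ) ^ (-(ε / 4)) * x ≤ G.card := by
    rw [hG, card_GG hD hK hdisc]
    exact hcnt D hD x hx1 hx2
  have h7 : (c1 * (D : ℝ) ^ (-(ε / 4)) * x) ^ 2 ≤ M * F.card := by
    refine le_trans ?_ hcard'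
    gcongr
  -- conclusion
  set P : ℝ := (D : ℝ) ^ (ε / 4) with hP
  have hP1 : 1 ≤ P := Real.one_le_rpow hD1 (by positivity)
  have hP0 : 0 < P := by linarith
  have e1 : (D : ℝ) ^ (-(ε / 4)) = P⁻¹ := by rw [Real.rpow_neg hD0.le]
  have e2 : (D : ℝ) ^ (-ε) = (P ^ 4)⁻¹ := by
    rw [Real.rpow_neg hD0.le, hP, ← Real.rpow_natCast ((D : ℝ) ^ (ε / 4)) 4,
      ← Real.rpow_mul hD0.le]
    congr 2
    push_cast
    ring
  rw [e1, hM] at h7
  rw [e2]
  have hF0 : (0 : ℝ) ≤ F.card := by positivity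
  have h8 : c1 ^ 2 * (x : ℝ) ^ 2 ≤ C ^ 2 * P ^ 3 * F.card := by
    have h9 : (c1 * P⁻¹ * x) ^ 2 * P ^ 2 = c1 ^ 2 * (x : ℝ) ^ 2 := by
      field_simp
    rw [← h9]
    calc (c1 * P⁻¹ * x) ^ 2 * P ^ 2 ≤ (C ^ 2 * P * F.card) * P ^ 2 := by gcongr
      _ = C ^ 2 * P ^ 3 * F.card := by ring
  have h9 : c1 ^ 2 * (x : ℝ) ^ 2 ≤ C ^ 2 * P ^ 4 * F.card := by
    refine h8.trans ?_
    have : P ^ 3 ≤ P ^ 4 := pow_le_pow_right₀ hP1 (by norm_num)
    gcongr
  have hfin : c1 ^ 2 / C ^ 2 * (P ^ 4)⁻¹ * (x : ℝ) ^ 2 ≤ (F.card : ℝ) := by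
    have h10 : c1 ^ 2 / C ^ 2 * (P ^ 4)⁻¹ * (x : ℝ) ^ 2 = (c1 ^ 2 * (x : ℝ) ^ 2) / (C ^ 2 * P ^ 4) := by
      field_simp
    rw [h10, div_le_iff₀ (by positivity)]
    linarith
  exact hfin

end Pool.Agent.N380.BI
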